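import Pool.Agent.W_78bee8_h33.Final2

/-!
# MP_78bee8_co : a subcubic bound for the union complexity
-/

namespace Pool.Agent.Results.MP_78bee8_co.SubcubicUnion

open Set Pointwise

/-- three-space -/
abbrev R3 : Type := Fin 3 → ℝ

/-- `S` is a semialgebraic set of description `(s, b)`: membership of `x` is determined by the signs
at `x` of `s` polynomials of degree at most `b` -/
def SemiAlg (s b : ℕ) (S : Set R3) : Prop :=
  ∃ (p : Fin s → MvPolynomial (Fin 3) ℝ) (T : Set (Fin s → SignType)),
    (∀ i, (p i).totalDegree ≤ b) ∧
      S = {x | (fun i => SignType.sign (MvPolynomial.eval x (p i))) ∈ T}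

/-- the points of the boundary of the union of the `K i` which lie in `K i` for `i ∈ I` and in no
other set of the family -/
def stratum {n : ℕ} (K : Fin n → Set R3) (I : Finset (Fin n)) : Set R3 :=
  {w | w ∈ frontier (⋃ i, K i) ∧ ∀ i, w ∈ K i ↔ i ∈ I}

/-- the complexity of the union: the number of all vertices, edges and two-dimensional faces of its
boundary, i.e. of the connected components of all strata -/
noncomputable def complexity {n : ℕ} (K : Fin n → Set R3) : ℕ∞ :=
  ∑ I : Finset (Fin n), ENat.card (ConnectedComponents (stratum K I))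

/-- For all `s`, `b` there are `C, δ > 0` such that the boundary of the union of the sums `A i + B` of
`n` pairwise disjoint compact convex sets `A i` with a compact convex set `B`, all semialgebraic of
description `(s, b)`, has at most `C n^(3-δ)` faces of all dimensions, provided that no point lies on
the boundaries of four of the sums. -/
theorem result (s b : ℕ) : ∃ C δ : ℝ, 0 < C ∧ 0 < δ ∧
    ∀ (n : ℕ) (A : Fin n → Set R3) (B : Set R3), (∀ i, SemiAlg s b (A i)) →
      (∀ i, IsCompact (A i)) → (∀ i, Convex ℝ (A i)) → SemiAlg s b B → IsCompact B →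
      Convex ℝ B → (∀ i j, i ≠ j → Disjoint (A i) (A j)) →
      (∀ w, {i | w ∈ frontier (A i + B)}.ncard ≤ 3) →
      ∃ m : ℕ, complexity (fun i => A i + B) = m ∧ (m : ℝ) ≤ C * (n : ℝ) ^ (3 - δ) :=
  U78.final_complexity s b

end Pool.Agent.Results.MP_78bee8_co.SubcubicUnion
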